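import Pool.Agent.N329.SD.Stm

/-!
# Project SD, part AND: intersections of `Σ¹₂` sets (helper383 for helper329)
-/

set_option autoImplicit false

namespace Pool.Agent.N383.SD

open Pool.Agent.N329.SD

/-- the list without its last element -/
def dL (s : List ℕ) : List ℕ := s.reverse.tail.reverse

theorem dl_el (s : List ℕ) : dl (el s) = s := Denumerable.ofNat_encode s

theorem pre_succ (x : ℕ → ℕ) (k : ℕ) : pre x (k + 1) = pre x k ++ [x k] := by
  unfold pre
  rw [List.range_succ, List.map_append]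
  rfl

theorem dL_pre (x : ℕ → ℕ) (k : ℕ) : dL (pre x (k + 1)) = pre x k := by
  unfold dL
  rw [pre_succ, List.reverse_append]
  simp

theorem pre_head (x : ℕ → ℕ) (k : ℕ) : pre x (k + 1) = x 0 :: pre (fun i => x (i + 1)) k := by
  unfold pre
  rw [List.range_succ_eq_map, List.map_cons, List.map_map]
  rfl

theorem pre_map (x : ℕ → ℕ) (f : ℕ → ℕ) (k : ℕ) : (pre x k).map f = pre (fun i => f (x i)) k := by
  unfold pre
  rw [List.map_map]
  rfl

/-- the three lists -/
def sA (n : ℕ) : List ℕ := dl n.unpair.1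
/-- the three lists -/
def tA (n : ℕ) : List ℕ := dl n.unpair.2.unpair.1
/-- the three lists -/
def uA (n : ℕ) : List ℕ := dl n.unpair.2.unpair.2

theorem sA_cd (s t u : List ℕ) : sA (cd s t u) = s := by
  unfold sA cd
  rw [Nat.unpair_pair, dl_el]

theorem tA_cd (s t u : List ℕ) : tA (cd s t u) = t := by
  unfold tA cd
  rw [Nat.unpair_pair, Nat.unpair_pair, dl_el]

theorem uA_cd (s t u : List ℕ) : uA (cd s t u) = u := by
  unfold uA cd
  rw [Nat.unpair_pair, Nat.unpair_pair, dl_el]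

/-- the transformation -/
def gA (f : ℕ → ℕ) (n : ℕ) : ℕ := cd (dL (sA n)) ((dL (tA n)).map f) (uA n).tail

theorem gA_cd (f : ℕ → ℕ) (x y z : ℕ → ℕ) (k : ℕ) :
    gA f (cd (pre x (k + 1)) (pre y (k + 1)) (pre z (k + 1))) =
      cd (pre x k) (pre (fun i => f (y i)) k) (pre (fun i => z (i + 1)) k) := by
  unfold gA
  rw [sA_cd, tA_cd, uA_cd, dL_pre, dL_pre, pre_map, pre_head z k, List.tail_cons]

theorem prim_s : Primrec sA := (Primrec.ofNat (List ℕ)).comp (Primrec.fst.comp Primrec.unpair)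

theorem prim_t : Primrec tA := (Primrec.ofNat (List ℕ)).comp
  (Primrec.fst.comp (Primrec.unpair.comp (Primrec.snd.comp Primrec.unpair)))

theorem prim_u : Primrec uA := (Primrec.ofNat (List ℕ)).comp
  (Primrec.snd.comp (Primrec.unpair.comp (Primrec.snd.comp Primrec.unpair)))

theorem prim_dL : Primrec dL :=
  Primrec.list_reverse.comp (Primrec.list_tail.comp Primrec.list_reverse)

theorem prim_cd : Primrec fun p : List ℕ × List ℕ × List ℕ => cd p.1 p.2.1 p.2.2 := by
  have h1 : Primrec el := Primrec.encode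
  exact Primrec₂.natPair.comp (h1.comp Primrec.fst) (Primrec₂.natPair.comp
    (h1.comp (Primrec.fst.comp Primrec.snd)) (h1.comp (Primrec.snd.comp Primrec.snd)))

theorem prim_g {f : ℕ → ℕ} (hf : Primrec f) : Primrec (gA f) := by
  have h1 : Primrec fun n => (dL (tA n)).map f :=
    Primrec.list_map (prim_dL.comp prim_t) (hf.comp Primrec.snd).to₂
  exact prim_cd.comp (Primrec.pair (prim_dL.comp prim_s)
    (Primrec.pair h1 (Primrec.list_tail.comp prim_u)))

theorem comp_head (a : Option ℕ) : ComputablePred fun n => (uA n).head? = a := by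
  have h1 : Primrec fun n => (uA n).head? := Primrec.list_head?.comp prim_u
  have h2 : PrimrecPred fun n => (uA n).head? = a := Primrec.eq.comp h1 (Primrec.const a)
  obtain ⟨h3, h4⟩ := h2
  exact ⟨h3, h4.to_comp⟩

theorem clo_union {C : Set ℕ → Prop} (hC : Clo C) {S T : Set ℕ} (hS : C S) (hT : C T) :
    C (S ∪ T) := by
  have h1 := hC.compl _ (hC.inter _ _ (hC.compl _ hS) (hC.compl _ hT))
  rwa [Set.compl_inter, compl_compl, compl_compl] at h1

/-- the matrix of the intersection -/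
def RA (R1 R2 : Set ℕ) : Set ℕ :=
  ({n | (uA n).head? = some 0} ∩ {n | gA (fun n => n.unpair.1) n ∈ R1}) ∪
  (({n | (uA n).head? = some 0}ᶜ ∩ {n | (uA n).head? = none}ᶜ) ∩
    {n | gA (fun n => n.unpair.2) n ∈ R2})

theorem clo_RA {C : Set ℕ → Prop} (hC : Clo C) {R1 R2 : Set ℕ} (h1 : C R1) (h2 : C R2) :
    C (RA R1 R2) := by
  have g1 : Computable (gA fun n => n.unpair.1) :=
    (prim_g (Primrec.fst.comp Primrec.unpair)).to_comp
  have g2 : Computable (gA fun n => n.unpair.2) :=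
    (prim_g (Primrec.snd.comp Primrec.unpair)).to_comp
  have k0 := hC.comp _ (comp_head (some 0))
  have k1 := hC.comp _ (comp_head none)
  exact clo_union hC (hC.inter _ _ k0 (hC.pre _ _ h1 g1))
    (hC.inter _ _ (hC.inter _ _ (hC.compl _ k0) (hC.compl _ k1)) (hC.pre _ _ h2 g2))

theorem mem_RA_zero (R1 R2 : Set ℕ) (x y z : ℕ → ℕ) :
    cd (pre x 0) (pre y 0) (pre z 0) ∉ RA R1 R2 := by
  have h1 : (uA (cd (pre x 0) (pre y 0) (pre z 0))).head? = none := by
    rw [uA_cd]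
    rfl
  rintro (⟨h2, -⟩ | ⟨⟨-, h2⟩, -⟩)
  · have h3 : (uA (cd (pre x 0) (pre y 0) (pre z 0))).head? = some 0 := h2
    rw [h1] at h3
    exact absurd h3 (by simp)
  · exact h2 h1

theorem head_cd (x y z : ℕ → ℕ) (k : ℕ) :
    (uA (cd (pre x (k + 1)) (pre y (k + 1)) (pre z (k + 1)))).head? = some (z 0) := by
  rw [uA_cd, pre_head]
  rfl

theorem mem_RA_succ (R1 R2 : Set ℕ) (x y z : ℕ → ℕ) (k : ℕ) :
    cd (pre x (k + 1)) (pre y (k + 1)) (pre z (k + 1)) ∈ RA R1 R2 ↔
      (z 0 = 0 ∧ cd (pre x k) (pre (fun i => (y i).unpair.1) k) (pre (fun i => z (i + 1)) k) ∈ R1) ∨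
      (z 0 ≠ 0 ∧
        cd (pre x k) (pre (fun i => (y i).unpair.2) k) (pre (fun i => z (i + 1)) k) ∈ R2) := by
  have h1 := head_cd x y z k
  have h2 := gA_cd (fun n => n.unpair.1) x y z k
  have h3 := gA_cd (fun n => n.unpair.2) x y z k
  unfold RA
  constructor
  · rintro (⟨k1, k2⟩ | ⟨⟨k1, -⟩, k2⟩)
    · left
      have k3 : (uA (cd (pre x (k + 1)) (pre y (k + 1)) (pre z (k + 1)))).head? = some 0 := k1
      have k4 : gA (fun n => n.unpair.1)
        (cd (pre x (k + 1)) (pre y (k + 1)) (pre z (k + 1))) ∈ R1 := k2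
      rw [h1] at k3
      rw [h2] at k4
      exact ⟨Option.some.inj k3, k4⟩
    · right
      have k4 : gA (fun n => n.unpair.2)
        (cd (pre x (k + 1)) (pre y (k + 1)) (pre z (k + 1))) ∈ R2 := k2
      rw [h3] at k4
      refine ⟨fun k5 => k1 ?_, k4⟩
      change (uA (cd (pre x (k + 1)) (pre y (k + 1)) (pre z (k + 1)))).head? = some 0
      rw [h1, k5]
  · rintro (⟨k1, k2⟩ | ⟨k1, k2⟩)
    · left
      refine ⟨?_, ?_⟩
      · change (uA (cd (pre x (k + 1)) (pre y (k + 1)) (pre z (k + 1)))).head? = some 0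
        rw [h1, k1]
      · change gA (fun n => n.unpair.1)
          (cd (pre x (k + 1)) (pre y (k + 1)) (pre z (k + 1))) ∈ R1
        rw [h2]
        exact k2
    · right
      refine ⟨⟨?_, ?_⟩, ?_⟩
      · change ¬ (uA (cd (pre x (k + 1)) (pre y (k + 1)) (pre z (k + 1)))).head? = some 0
        rw [h1]
        exact fun k5 => k1 (Option.some.inj k5)
      · change ¬ (uA (cd (pre x (k + 1)) (pre y (k + 1)) (pre z (k + 1)))).head? = none
        rw [h1]
        simp
      · change gA (fun n => n.unpair.2)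
          (cd (pre x (k + 1)) (pre y (k + 1)) (pre z (k + 1))) ∈ R2
        rw [h3]
        exact k2

/-- SD/AND -/
theorem t_and : S_AND := by
  rintro C hC A B ⟨R1, h1, hA⟩ ⟨R2, h2, hB⟩
  refine ⟨RA R1 R2, clo_RA hC h1 h2, fun x => ?_⟩
  constructor
  · rintro ⟨hxA, hxB⟩
    obtain ⟨y1, hy1⟩ := (hA x).1 hxA
    obtain ⟨y2, hy2⟩ := (hB x).1 hxB
    refine ⟨fun i => Nat.pair (y1 i) (y2 i), fun z => ?_⟩
    by_cases hz : z 0 = 0
    · obtain ⟨k, hk⟩ := hy1 fun i => z (i + 1)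
      refine ⟨k + 1, (mem_RA_succ R1 R2 x _ z k).2 (Or.inl ⟨hz, ?_⟩)⟩
      simp only [Nat.unpair_pair]
      exact hk
    · obtain ⟨k, hk⟩ := hy2 fun i => z (i + 1)
      refine ⟨k + 1, (mem_RA_succ R1 R2 x _ z k).2 (Or.inr ⟨hz, ?_⟩)⟩
      simp only [Nat.unpair_pair]
      exact hk
  · rintro ⟨y, hy⟩
    have key : ∀ (a : ℕ) (z' : ℕ → ℕ), ∃ k,
        (a = 0 ∧ cd (pre x k) (pre (fun i => (y i).unpair.1) k) (pre z' k) ∈ R1) ∨
        (a ≠ 0 ∧ cd (pre x k) (pre (fun i => (y i).unpair.2) k) (pre z' k) ∈ R2) := by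
      intro a z'
      obtain ⟨k, hk⟩ := hy fun i => Nat.casesOn i a z'
      cases k with
      | zero => exact absurd hk (mem_RA_zero R1 R2 x y _)
      | succ k => exact ⟨k, (mem_RA_succ R1 R2 x y _ k).1 hk⟩
    refine ⟨(hA x).2 ⟨fun i => (y i).unpair.1, fun z' => ?_⟩,
      (hB x).2 ⟨fun i => (y i).unpair.2, fun z' => ?_⟩⟩
    · obtain ⟨k, hk | hk⟩ := key 0 z'
      · exact ⟨k, hk.2⟩
      · exact absurd rfl hk.1
    · obtain ⟨k, hk | hk⟩ := key 1 z'
      · exact absurd hk.1 one_ne_zero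
      · exact ⟨k, hk.2⟩

end Pool.Agent.N383.SD

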